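import Mathlib

open Filter Topology Finset

namespace Pool.Agent.Results.MP_47003a_an.Counter

instance f4 : Fact ((1 : ENNReal) ≤ 4) := ⟨by norm_num⟩

abbrev H := lp (fun _ : ℕ => ℝ) 2
abbrev F := lp (fun _ : ℕ => ℝ) 4
abbrev B := H × F

noncomputable def e (n : ℕ) : H := lp.single 2 n 1
noncomputable def f (n : ℕ) : F := lp.single 4 n 1

noncomputable def cu (n : ℕ) : B →L[ℝ] ℝ :=
  (lp.evalCLM ℝ (fun _ : ℕ => ℝ) 2 n).comp (ContinuousLinearMap.fst ℝ H F)
noncomputable def cv (n : ℕ) : B →L[ℝ] ℝ :=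
  (lp.evalCLM ℝ (fun _ : ℕ => ℝ) 4 n).comp (ContinuousLinearMap.snd ℝ H F)

lemma cu_ap (n : ℕ) (z : B) : cu n z = z.1 n := rfl
lemma cv_ap (n : ℕ) (z : B) : cv n z = z.2 n := rfl

noncomputable def vec (i : ℕ) : B :=
  if i % 2 = 0 then ((2 : ℝ) • e (i / 2), f (i / 2)) else (-e (i / 2), -f (i / 2))

noncomputable def co (i : ℕ) : B →L[ℝ] ℝ :=
  if i % 2 = 0 then cu (i / 2) - cv (i / 2) else cu (i / 2) - (2 : ℝ) • cv (i / 2)

lemma e_ap (n m : ℕ) : e n m = if m = n then 1 else 0 := by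
  simp [e, lp.single_apply, Pi.single_apply]
lemma f_ap (n m : ℕ) : f n m = if m = n then 1 else 0 := by
  simp [f, lp.single_apply, Pi.single_apply]

lemma vec0 (m : ℕ) : vec (2 * m) = ((2 : ℝ) • e m, f m) := by simp [vec]
lemma vec1 (m : ℕ) : vec (2 * m + 1) = (-e m, -f m) := by
  have : (2 * m + 1) / 2 = m := by omega
  simp [vec, this]
lemma co0 (m : ℕ) (z : B) : co (2 * m) z = z.1 m - z.2 m := by simp [co, cu_ap, cv_ap]
lemma co1 (m : ℕ) (z : B) : co (2 * m + 1) z = z.1 m - 2 * z.2 m := by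
  have : (2 * m + 1) / 2 = m := by omega
  simp [co, this, cu_ap, cv_ap]

lemma even_sum (z : B) (m : ℕ) : ∑ i ∈ range (2 * m), co i z • vec i =
    (∑ n ∈ range m, lp.single 2 n (z.1 n), ∑ n ∈ range m, lp.single 4 n (z.2 n)) := by
  induction m with
  | zero => rfl
  | succ m ih =>
    rw [mul_add, mul_one, sum_range_succ, sum_range_succ, ih, sum_range_succ, sum_range_succ,
      vec0, vec1, co0, co1]
    have h1 : lp.single 2 m (z.1 m) = z.1 m • e m := by
      rw [e, ← lp.single_smul, smul_eq_mul, mul_one]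
    have h2 : lp.single 4 m (z.2 m) = z.2 m • f m := by
      rw [f, ← lp.single_smul, smul_eq_mul, mul_one]
    rw [h1, h2]
    ext1
    · simp only [Prod.fst_add, Prod.smul_fst]
      module
    · simp only [Prod.snd_add, Prod.smul_snd]
      module

lemma tend (z : B) : Tendsto (fun n => ∑ i ∈ range n, co i z • vec i) atTop (𝓝 z) := by
  have s1 := lp.hasSum_single (p := 2) (by norm_num) z.1
  have s2 := lp.hasSum_single (p := 4) (by norm_num) z.2
  have t1 : Tendsto (fun m => ∑ i ∈ range (2 * m), co i z • vec i) atTop (𝓝 z) := by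
    simp only [even_sum]
    exact s1.tendsto_sum_nat.prodMk_nhds s2.tendsto_sum_nat
  have a1 : Tendsto (fun m => |z.1 m|) atTop (𝓝 0) := by
    simpa using s1.summable.tendsto_atTop_zero.norm
  have a2 : Tendsto (fun m => |z.2 m|) atTop (𝓝 0) := by
    simpa using s2.summable.tendsto_atTop_zero.norm
  have t2 : Tendsto (fun m => co (2 * m) z • vec (2 * m)) atTop (𝓝 0) := by
    refine squeeze_zero_norm (a := fun m => (|z.1 m| + |z.2 m|) * 2) (fun m => ?_)
      (by simpa using (a1.add a2).mul_const 2)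
    rw [norm_smul, co0, vec0]
    gcongr
    · exact abs_sub _ _
    · simp [e, f, Prod.norm_def, norm_smul]
  have t3 : Tendsto (fun m => ∑ i ∈ range (2 * m + 1), co i z • vec i) atTop (𝓝 z) := by
    simp only [sum_range_succ]
    simpa using t1.add t2
  rw [Metric.tendsto_atTop] at t1 t3 ⊢
  intro ε hε
  obtain ⟨N1, h1⟩ := t1 ε hε
  obtain ⟨N3, h3⟩ := t3 ε hε
  refine ⟨2 * (N1 + N3), fun n hn => ?_⟩
  obtain ⟨m, rfl | rfl⟩ := Nat.even_or_odd' n
  · exact h1 m (by omega)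
  · exact h3 m (by omega)

noncomputable def bas : SchauderBasis ℝ B where
  basis := vec
  coord := co
  ortho i j := by
    obtain ⟨m, rfl | rfl⟩ := Nat.even_or_odd' i <;> obtain ⟨k, rfl | rfl⟩ := Nat.even_or_odd' j <;>
      simp only [co0, co1, vec0, vec1, lp.coeFn_smul, lp.coeFn_neg, Pi.smul_apply, Pi.neg_apply,
        e_ap, f_ap, Pi.single_apply, smul_eq_mul] <;>
      split_ifs <;> first | omega | norm_num
  expansion z := by
    rw [HasSum, SummationFilter.conditional_filter_eq_map_range, tendsto_map'_iff]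
    exact tend z

lemma signs (v : ℕ → H) (n : ℕ) : ∃ s : ℕ → ℝ, (∀ i, |s i| = 1) ∧
    ∑ i ∈ range n, ‖v i‖ ^ 2 ≤ ‖∑ i ∈ range n, s i • v i‖ ^ 2 := by
  induction n with
  | zero => exact ⟨fun _ => 1, by simp, by simp⟩
  | succ n ih =>
    obtain ⟨s, hs, h⟩ := ih
    have key : ∀ t : ℝ, ∑ i ∈ range (n + 1), Function.update s n t i • v i =
        ∑ i ∈ range n, s i • v i + t • v n := fun t => by
      rw [sum_range_succ, Function.update_self]
      congr 1
      exact sum_congr rfl fun i hi => by rw [Function.update_of_ne (mem_range.1 hi).ne]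
    have up : ∀ t : ℝ, |t| = 1 → ∀ i, |Function.update s n t i| = 1 := fun t ht i => by
      by_cases hi : i = n
      · rw [hi, Function.update_self, ht]
      · rw [Function.update_of_ne hi, hs]
    have par := parallelogram_law_with_norm ℝ (∑ i ∈ range n, s i • v i) (v n)
    rcases le_total ‖∑ i ∈ range n, s i • v i + v n‖ ‖∑ i ∈ range n, s i • v i - v n‖ with c | c
    · refine ⟨Function.update s n (-1), up _ (by simp), ?_⟩
      rw [key, sum_range_succ, neg_one_smul, ← sub_eq_add_neg]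
      nlinarith [norm_nonneg (∑ i ∈ range n, s i • v i + v n)]
    · refine ⟨Function.update s n 1, up _ (by simp), ?_⟩
      rw [key, sum_range_succ, one_smul]
      nlinarith [norm_nonneg (∑ i ∈ range n, s i • v i - v n)]

lemma small (K : F →ₗ[ℝ] H) (M η : ℝ) (hη : 0 < η) (hK : ∀ y, ‖K y‖ ≤ M * ‖y‖) :
    ∃ n, ‖K (f n)‖ < η := by
  by_contra hn
  push Not at hn
  obtain ⟨n, hn'⟩ := exists_nat_gt (M ^ 4 / η ^ 4)
  obtain ⟨s, hs, h⟩ := signs (fun i => K (f i)) n
  have e1 : ∑ i ∈ range n, s i • K (f i) = K (∑ i ∈ range n, lp.single 4 i (s i)) := by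
    rw [map_sum]
    refine sum_congr rfl fun i _ => ?_
    rw [← map_smul, f, ← lp.single_smul, smul_eq_mul, mul_one]
  have e2 : ‖(∑ i ∈ range n, lp.single 4 i (s i) : F)‖ ^ 4 = n := by
    have := lp.norm_sum_single (E := fun _ : ℕ => ℝ) (p := 4) (by norm_num) s (range n)
    simp only [Real.norm_eq_abs, hs, Real.one_rpow, sum_const, card_range, nsmul_eq_mul,
      mul_one, ENNReal.toReal_ofNat] at this
    exact_mod_cast this
  rw [e1] at h
  have h1 : n * η ^ 2 ≤ ∑ i ∈ range n, ‖K (f i)‖ ^ 2 := by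
    have := card_nsmul_le_sum (range n) (fun i => ‖K (f i)‖ ^ 2) (η ^ 2)
      fun i _ => pow_le_pow_left₀ hη.le (hn i) 2
    simpa using this
  obtain ⟨y, hy⟩ : ∃ y : F, y = ∑ i ∈ range n, lp.single 4 i (s i) := ⟨_, rfl⟩
  rw [← hy] at h e2
  have h2 : (n * η ^ 2) ^ 2 ≤ (M * ‖y‖) ^ 4 := by
    calc (n * η ^ 2) ^ 2 ≤ (‖K y‖ ^ 2) ^ 2 := pow_le_pow_left₀ (by positivity) (h1.trans h) 2
      _ = ‖K y‖ ^ 4 := by ring
      _ ≤ _ := pow_le_pow_left₀ (norm_nonneg _) (hK y) 4
  rw [mul_pow M, e2] at h2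
  rw [div_lt_iff₀ (by positivity)] at hn'
  have hn0 : (0 : ℝ) < n := by
    by_contra h0
    have : (n : ℝ) = 0 := le_antisymm (not_lt.1 h0) (Nat.cast_nonneg n)
    rw [this, zero_mul] at hn'
    exact absurd hn' (not_lt.2 (by positivity))
  nlinarith

theorem result : ∃ (X : Type) (_ : NormedAddCommGroup X) (_ : NormedSpace ℝ X)
    (_ : CompleteSpace X) (b : SchauderBasis ℝ X) (E : Submodule ℝ X),
    IsClosed (E : Set X) ∧ (∃ p : X →L[ℝ] X, (∀ x, p x ∈ E) ∧ ∀ x ∈ E, p x = x) ∧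
    ∀ (N : Seminorm ℝ X) (c C : ℝ), 0 < c → (∀ x, c * ‖x‖ ≤ N x ∧ N x ≤ C * ‖x‖) →
      (∀ n x, N (b.proj n x) ≤ N x) →
      ¬ ∃ p : X →ₗ[ℝ] X, (∀ x, p x ∈ E) ∧ (∀ x ∈ E, p x = x) ∧ ∀ x, N (p x) ≤ N x := by
  refine ⟨B, inferInstance, inferInstance, inferInstance, bas,
    (ContinuousLinearMap.snd ℝ H F).ker, ContinuousLinearMap.isClosed_ker _,
    ⟨(ContinuousLinearMap.inl ℝ H F).comp (ContinuousLinearMap.fst ℝ H F), fun x => rfl,
      fun x hx => Prod.ext rfl (Eq.symm hx)⟩, ?_⟩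
  rintro N c C hc hN hb ⟨p, hp1, hp2, hp3⟩
  have hp1' : ∀ x, (p x).2 = 0 := hp1
  have hC : 0 < C := by
    have := (hN (e 0, 0)).1.trans (hN (e 0, 0)).2
    simp [e, Prod.norm_def] at this
    linarith
  obtain ⟨n, hn⟩ := small ((LinearMap.fst ℝ H F).comp (p.comp (LinearMap.inr ℝ H F)))
    (C / c) (c / C) (by positivity) fun y => by
      have h1 := (hN (p (0, y))).1.trans ((hp3 _).trans (hN (0, y)).2)
      have h2 : ‖((0, y) : B)‖ = ‖y‖ := by simp [Prod.norm_def]
      rw [h2] at h1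
      rw [div_mul_eq_mul_div, le_div_iff₀ hc]
      have h3 := norm_fst_le (p (0, y))
      simp only [LinearMap.comp_apply, LinearMap.fst_apply, LinearMap.inr_apply]
      nlinarith
  simp only [LinearMap.comp_apply, LinearMap.fst_apply, LinearMap.inr_apply] at hn
  have hn2 : ‖p (0, f n)‖ < c / C := by
    rw [Prod.norm_def, hp1', norm_zero, max_eq_left (norm_nonneg _)]
    exact hn
  have e1 : ((e n, 0) : B) = bas (2 * n) + bas (2 * n + 1) := by
    change _ = vec _ + vec _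
    rw [vec0, vec1]
    ext1
    · simp only [Prod.fst_add]
      module
    · simp
  have e2 : bas.proj (2 * n + 1) (e n, 0) = (2 : ℝ) • ((e n, 0) : B) + (0, f n) := by
    rw [e1, map_add, bas.proj_apply_basis_mem, bas.proj_apply_basis_mem, if_pos (by omega),
      if_neg (by omega), ← e1, add_zero]
    change vec _ = _
    rw [vec0]
    simp
  have h1 := (hp3 _).trans (hb (2 * n + 1) (e n, 0))
  rw [e2, map_add, map_smul, hp2 (e n, 0) rfl] at h1
  have h2 := map_sub_le_add N ((2 : ℝ) • ((e n, 0) : B) + p (0, f n)) (p (0, f n))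
  rw [add_sub_cancel_right, map_smul_eq_mul, Real.norm_two] at h2
  have h3 := (hN (e n, 0)).1
  have h4 : ‖((e n, 0) : B)‖ = 1 := by simp [e, Prod.norm_def]
  have h5 := (hN (p (0, f n))).2
  rw [lt_div_iff₀ hC] at hn2
  rw [h4] at h3
  linarith

end Pool.Agent.Results.MP_47003a_an.Counter
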